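import Pool.Agent.Helper99.PG.Goals
import Mathlib

/-!
PROJECT C2, packet PG-MT: the matrix tree theorem for functional graphs.
-/

namespace Pool.Agent.Helper84.PG

open Pool.Agent.Helper99.PG Finset

section core

variable {ι R : Type} [Fintype ι] [DecidableEq ι] [CommRing R] (σ : ι → Option ι)

/-- the matrix of a functional graph -/
def fm (R : Type) [CommRing R] : Matrix ι ι R :=
  Matrix.of fun i j => (if j = i then (1 : R) else 0) - (if σ i = some j then 1 else 0)

theorem det_zero (h : ¬ ∀ i, Acc (fun j i => σ i = some j) i) : (fm σ R).det = 0 := by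
  classical
  push Not at h
  obtain ⟨i₀, h₀⟩ := h
  let v : ι → R := fun i => if Acc (fun j i => σ i = some j) i then 0 else 1
  have hv : (fm σ R).mulVec v = 0 := by
    funext i
    have e : (fm σ R).mulVec v i = v i - ∑ j, (if σ i = some j then v j else 0) := by
      simp [Matrix.mulVec, dotProduct, fm, sub_mul, Finset.sum_sub_distrib]
    rw [e]
    show v i - ∑ j, (if σ i = some j then v j else 0) = 0
    rcases hσ : σ i with _ | j
    · have hi : Acc (fun j i => σ i = some j) i := by
        constructor
        intro y hy
        rw [hσ] at hy
        exact absurd hy (by simp)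
      simp [v, hi]
    · have e2 : ∑ k, (if (some j : Option ι) = some k then v k else 0) = v j := by
        simp
      rw [e2]
      have hij : Acc (fun j i => σ i = some j) i ↔ Acc (fun j i => σ i = some j) j := by
        constructor
        · intro h
          exact h.inv hσ
        · intro h
          constructor
          intro y hy
          rw [hσ] at hy
          have : j = y := by simpa using hy
          exact this ▸ h
      by_cases hj : Acc (fun j i => σ i = some j) j
      · have hi := hij.mpr hj
        simp [v, hi, hj]
      · have hi : ¬ Acc (fun j i => σ i = some j) i := fun h => hj (hij.mp h)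
        simp [v, hi, hj]
  have h1 : (fm σ R).adjugate.mulVec ((fm σ R).mulVec v) = (fm σ R).det • v := by
    rw [Matrix.mulVec_mulVec, Matrix.adjugate_mul, Matrix.smul_mulVec, Matrix.one_mulVec]
  rw [hv, Matrix.mulVec_zero] at h1
  have h2 := congrFun h1 i₀
  simpa [v, h₀] using h2.symm

theorem det_one (h : ∀ i, Acc (fun j i => σ i = some j) i) : (fm σ R).det = 1 := by
  classical
  have : IsWellFounded ι (fun j i => σ i = some j) := ⟨⟨h⟩⟩
  let b : ι → Ordinal.{0}ᵒᵈ := fun i =>
    OrderDual.toDual (IsWellFounded.rank (fun j i => σ i = some j) i)
  have hb : ∀ i j, σ i = some j → b i < b j := by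
    intro i j hij
    have := IsWellFounded.rank_lt_of_rel (r := fun j i => σ i = some j) (a := j) (b := i) hij
    exact OrderDual.toDual_lt_toDual.mpr this
  have hbt : Matrix.BlockTriangular (fm σ R) b := by
    intro i j hij
    have h1 : j ≠ i := by
      rintro rfl
      exact lt_irrefl _ hij
    have h2 : σ i ≠ some j := fun h => lt_asymm hij (hb i j h)
    simp [fm, h1, h2]
  rw [hbt.det]
  apply Finset.prod_eq_one
  intro a _
  have : (fm σ R).toSquareBlock b a = 1 := by
    ext ⟨i, hi⟩ ⟨j, hj⟩
    have h2 : σ i ≠ some j := by
      intro h
      have := hb i j h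
      rw [hi, hj] at this
      exact lt_irrefl _ this
    by_cases hij : i = j
    · subst hij
      simp [Matrix.toSquareBlock, Matrix.toSquareBlockProp, fm, h2]
    · simp [Matrix.toSquareBlock, Matrix.toSquareBlockProp, fm, h2, hij, Ne.symm hij]
  rw [this, Matrix.det_one]

end core

theorem mTree : GoalMTree := by
  intro ι R _ _ _ w τ
  have e : (Matrix.of fun i j => ∑ c : Bool, w i c *
      ((if j = i then (1 : R) else 0) - (if τ i c = some j then 1 else 0))).det =
      ∑ A : ι → Bool, (∏ i, w i (A i)) * (fm (fun i => τ i (A i)) R).det := by
    have h0 : (Matrix.of fun i j => ∑ c : Bool, w i c *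
      ((if j = i then (1 : R) else 0) - (if τ i c = some j then 1 else 0))).det =
      Matrix.detRowAlternating (fun i => ∑ c : Bool,
        (w i c • (fun j => (if j = i then (1 : R) else 0) - (if τ i c = some j then 1 else 0)))) := by
      show Matrix.det _ = Matrix.det _
      congr 1
    rw [h0]
    have h1 := (Matrix.detRowAlternating (R := R) (n := ι)).toMultilinearMap.map_sum
      (α := fun _ => Bool)
      (g := fun i c => (w i c • (fun j => (if j = i then (1 : R) else 0) -
        (if τ i c = some j then 1 else 0))))
    refine h1.trans ?_
    apply Finset.sum_congr rfl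
    intro A _
    have h2 := (Matrix.detRowAlternating (R := R) (n := ι)).toMultilinearMap.map_smul_univ
      (fun i => w i (A i)) (fun i => (fun j => (if j = i then (1 : R) else 0) -
        (if τ i (A i) = some j then 1 else 0)))
    refine h2.trans ?_
    rfl
  refine Eq.trans ?_ (e.trans ?_)
  · rfl
  · apply Finset.sum_congr rfl
    intro A _
    by_cases h : ∀ i, Acc (fun j i => τ i (A i) = some j) i
    · rw [if_pos h, det_one _ h, mul_one]
    · rw [if_neg h, det_zero _ h, mul_zero]

end Pool.Agent.Helper84.PG

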